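import Mathlib

set_option autoImplicit false

namespace Pool.Agent.H98Z.KN

open Finset

/-- the plane -/
abbrev E : Type := EuclideanSpace ℝ (Fin 2)

/-- orientation determinant of three labelled points; label `u` has index `u / 2`, letter `u % 2` -/
def o (x y : ℕ → ℝ) (a b c : ℕ) : ℝ :=
  (x b - x a) * (y c - y a) - (y b - y a) * (x c - x a)

/-- parameter on the line `a c` of its crossing with the line `b d` -/
noncomputable def tt (x y : ℕ → ℝ) (a c b d : ℕ) : ℝ :=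
  o x y b d a / (o x y b d a - o x y b d c)

/-- first coordinate of the crossing point -/
noncomputable def cx (x y : ℕ → ℝ) (a c b d : ℕ) : ℝ := x a + tt x y a c b d * (x c - x a)

/-- second coordinate of the crossing point -/
noncomputable def cy (x y : ℕ → ℝ) (a c b d : ℕ) : ℝ := y a + tt x y a c b d * (y c - y a)

/-- concurrency polynomial of the three long diagonals of a hexagon -/
def D0 (x y : ℕ → ℝ) (v0 v1 v2 v3 v4 v5 : ℕ) : ℝ :=
  o x y v2 v4 v5 * o x y v0 v1 v3 - o x y v1 v2 v5 * o x y v0 v3 v4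

/-- `D0` on a list -/
def DD (x y : ℕ → ℝ) (l : List ℕ) : ℝ :=
  D0 x y (l.getD 0 0) (l.getD 1 0) (l.getD 2 0) (l.getD 3 0) (l.getD 4 0) (l.getD 5 0)

/-- even labels first, then odd labels -/
def hexL (l : List ℕ) : List ℕ :=
  l.filter (fun u => u % 2 == 0) ++ l.filter (fun u => u % 2 == 1)

/-- For any three crossing points named by twelve labels, one point of each other pair can be
selected so that each crossing point is strictly separated from all selected points. -/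
def Cov (N : ℕ) (x y : ℕ → ℝ) : Prop :=
  ∀ A : Fin 3 → Fin 4 → ℕ, (∀ j m, A j m < 2 * N) →
    ∃ (sel : ℕ → ℕ) (α β : Fin 3 → ℝ), ∀ (i : ℕ), i < N → (∀ j m, A j m / 2 ≠ i) →
      sel i < 2 ∧ ∀ j : Fin 3,
        α j * cx x y (A j 0) (A j 1) (A j 2) (A j 3) + β j * cy x y (A j 0) (A j 1) (A j 2) (A j 3)
          < α j * x (2 * i + sel i) + β j * y (2 * i + sel i)

/-- the finite statement for homogeneous configurations of forty pairs -/
def StFin : Prop :=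
  ∀ (x y : ℕ → ℝ) (T : ℕ) (hs : List ℕ → SignType), T < 256 →
    (∀ a b c : ℕ, a / 2 < b / 2 → b / 2 < c / 2 → c < 80 →
      (T.testBit (4 * (a % 2) + 2 * (b % 2) + c % 2) = true → 0 < o x y a b c) ∧
      (T.testBit (4 * (a % 2) + 2 * (b % 2) + c % 2) = false → o x y a b c < 0)) →
    (∀ l : List ℕ, l.length = 6 → l.Pairwise (fun a b => a / 2 < b / 2) → (∀ a ∈ l, a < 80) →
      SignType.sign (DD x y (hexL l)) = hs (l.map (fun u => u % 2))) →
    Cov 40 x y → False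

/-- the geometric statement for many pairs in general position -/
def StGeo : Prop :=
  ∃ N : ℕ, ∀ x y : ℕ → ℝ,
    (∀ a b c : ℕ, a / 2 < b / 2 → b / 2 < c / 2 → c < 2 * N → o x y a b c ≠ 0) →
    Cov N x y → False

open Classical in
/-- union bound -/
def StUnion : Prop :=
  ∀ (Q ι B : Type) [Fintype Q] [Fintype B] (N : ℕ) (μ : Q → ℝ) (ε : ℝ) (miss : Q → ι → Prop)
    (idx : B → Finset (Fin N)) (Φ : B → (Fin N → Q) → ι),
    (∀ q, 0 ≤ μ q) → ∑ q, μ q = 1 → 0 ≤ ε →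
    (∀ F, ∑ q ∈ univ.filter (fun q => miss q F), μ q ≤ ε) →
    (∀ A s s', (∀ i ∈ idx A, s i = s' i) → Φ A s = Φ A s') →
    (Fintype.card B : ℝ) * N * ε < 1 →
    ∃ s : Fin N → Q, ∀ A, ∀ i, i ∉ idx A → ¬ miss (s i) (Φ A s)

open Classical in
/-- sample compression followed by the minimax theorem -/
def StCompress : Prop :=
  ∀ ε : ℝ, 0 < ε → ∃ k : ℕ, 0 < k ∧
    ∀ (ι : Type) [Fintype ι] [Nonempty ι] (cov : (Fin 4 → ι) → ι → Prop),
      (∀ s : Fin k → ι, ∃ a : Fin 4 → Fin k, ∀ i, cov (fun m => s (a m)) (s i)) →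
      ∃ μ : (Fin 4 → ι) → ℝ, (∀ q, 0 ≤ μ q) ∧ ∑ q, μ q = 1 ∧
        ∀ F, ∑ q ∈ univ.filter (fun q => ¬ cov q F), μ q ≤ ε

/-- reduction to compact cores, open hulls and least-norm points -/
def StReduce : Prop :=
  ∀ (ι : Type) [Fintype ι] (C : ι → Set E) (k : ℕ), 0 < k → (∀ F, Convex ℝ (C F)) →
    (∀ p : Fin 3 → E, ∃ F, ∀ j, p j ∉ C F) →
    (∀ s : Fin k → ι, ∃ p q : E, ∀ i, p ∈ C (s i) ∨ q ∈ C (s i)) →
    ∃ (K O : ι → Set E) (m : ι → ι → E) (η : ℝ), 0 < η ∧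
      (∀ F, IsOpen (O F)) ∧ (∀ F, Convex ℝ (O F)) ∧
      (∀ p : Fin 3 → E, ∃ F, ∀ j, p j ∉ O F) ∧
      (∀ F, ∀ u ∈ K F, ∀ z : E, dist z u < η → z ∈ O F) ∧
      (∀ s : Fin k → ι, ∃ a : Fin 4 → Fin k, ∀ i,
        m (s (a 0)) (s (a 1)) ∈ K (s i) ∨ m (s (a 2)) (s (a 3)) ∈ K (s i))

/-- small perturbation into general position -/
def StPerturb : Prop :=
  ∀ (J : Type) [Fintype J] (p : J → E) (η : ℝ), 0 < η →
    ∃ z : J → E, (∀ j, dist (z j) (p j) < η) ∧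
      ∀ a b c : J, a ≠ b → a ≠ c → b ≠ c →
        (z b 0 - z a 0) * (z c 1 - z a 1) - (z b 1 - z a 1) * (z c 0 - z a 0) ≠ 0

/-- the target -/
def Target : Prop :=
  ∃ k₀ : ℕ, ∀ F : Finset (Set (EuclideanSpace ℝ (Fin 2))),
    (∀ C ∈ F, Convex ℝ C) →
    (∀ G ⊆ F, G.card ≤ k₀ →
      ∃ P : Finset (EuclideanSpace ℝ (Fin 2)), P.card ≤ 2 ∧ ∀ C ∈ G, ∃ p ∈ P, p ∈ C) →
    ∃ P : Finset (EuclideanSpace ℝ (Fin 2)), P.card ≤ 3 ∧ ∀ C ∈ F, ∃ p ∈ P, p ∈ C

end Pool.Agent.H98Z.KN
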